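import Pool.Agent.T6.H15.AJ.Defs

/-!
# Products and squares of homologically trivial cycles: definitions
-/

open CategoryTheory
open Pool.Agent.H914 Pool.Agent.H914.VarClass Pool.Agent.H914.VarClass.Obj Pool.Agent.R903
open Pool.Agent.T6.H15.BB Pool.Agent.T6.H15.AJ

universe u v w

namespace Pool.Agent.T6.H15.SQ

/-- `x = 0` -/
def Null {A : Type v} [CommRing A] (x : A) : Prop := x = 0

/-- `x y = 0` -/
def NullProd {A : Type v} [CommRing A] (x y : A) : Prop := x * y = 0

variable {k : Type u} [Field k] {𝒱 : VarClass k} {C : ChowTheory.{u, v} 𝒱}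

/-- `z w = 0` for homologically trivial classes `z`, `w` of positive codimensions on the same
variety. -/
def ProductsVanish (W : WeilTheory.{u, v, w} C) : Prop :=
  ∀ (X : 𝒱.Obj) (m n : ℕ) (z w : C.CH X), 1 ≤ m → 1 ≤ n → HomTrivial W X m z →
    HomTrivial W X n w → NullProd z w

/-- `z × w = 0` for homologically trivial classes `z`, `w` of positive codimensions. -/
def ExternalVanish (W : WeilTheory.{u, v, w} C) : Prop :=
  ∀ (X Y : 𝒱.Obj) (m n : ℕ) (z : C.CH X) (w : C.CH Y), 1 ≤ m → 1 ≤ n → HomTrivial W X m z →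
    HomTrivial W Y n w → Null (extProd C z w)

/-- Homologically trivial correspondences kill the homologically trivial classes. -/
def CorrespondencesVanish (W : WeilTheory.{u, v, w} C) : Prop :=
  ∀ (Y X : 𝒱.Obj) (n c : ℕ) (z : C.CH Y) (γ : C.CH (Y.prod X)), 1 ≤ n → 1 ≤ c →
    HomTrivial W Y n z → HomTrivial W (Y.prod X) c γ → Null (corrAct C γ z)

/-- Compositions of homologically trivial correspondences vanish. -/
def CompositionsVanish (W : WeilTheory.{u, v, w} C) : Prop :=
  ∀ (X Y Z : 𝒱.Obj) (a b : ℕ) (α : C.CH (X.prod Y)) (β : C.CH (Y.prod Z)), 1 ≤ a → 1 ≤ b →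
    HomTrivial W (X.prod Y) a α → HomTrivial W (Y.prod Z) b β → Null (compose C α β)

/-- `z ^ 2 = 0` for homologically trivial classes `z` of positive codimension. -/
def SquaresVanish (W : WeilTheory.{u, v, w} C) : Prop :=
  ∀ (X : 𝒱.Obj) (m : ℕ) (z : C.CH X), 1 ≤ m → HomTrivial W X m z → NullProd z z

/-- `z × z = 0` for homologically trivial classes `z` of positive codimension. -/
def SmashSquaresVanish (W : WeilTheory.{u, v, w} C) : Prop :=
  ∀ (X : 𝒱.Obj) (m : ℕ) (z : C.CH X), 1 ≤ m → HomTrivial W X m z → Null (extProd C z z)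

variable {W : WeilTheory.{u, v, w} C}

/-- Q1: the Abel–Jacobi maps are injective on the homologically trivial classes in `CH^m(X)`, for all
`X` and `m ≥ 1`. -/
def AJInjective (A : AJTheory W) : Prop := ∀ (X : 𝒱.Obj) (m : ℕ), 1 ≤ m → InjOnHom A X m

/-- The Abel–Jacobi maps are injective on the algebraically trivial classes in `CH^m(X)`, for all
`X` and `m ≥ 1`. -/
def AJInjectiveOnAlg (A : AJTheory W) : Prop := ∀ (X : 𝒱.Obj) (m : ℕ), 1 ≤ m → InjOnAlg A X m

end Pool.Agent.T6.H15.SQ
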