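import Pool.Agent.T6.H15.AJ.Zero
import Pool.Agent.T6.H15.SQ.Defs

/-!
# Products and squares of homologically trivial cycles
-/

open CategoryTheory CategoryTheory.Limits AlgebraicGeometry
open Pool.Agent.H914 Pool.Agent.H914.VarClass Pool.Agent.H914.VarClass.Obj Pool.Agent.R903
open Pool.Agent.R903.WeilTheory Pool.Agent.T6.H15.BB Pool.Agent.T6.H15.AJ

universe u v w

namespace Pool.Agent.T6.H15.SQ

variable {k : Type u} [Field k] {𝒱 : VarClass k} {C : ChowTheory.{u, v} 𝒱}
  {W : WeilTheory.{u, v, w} C} {X Y Z : 𝒱.Obj}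

lemma ext_mul_ext (x x' : C.CH X) (y y' : C.CH Y) :
    C.ext x y * C.ext x' y' = C.ext (x * x') (y * y') := by
  simp only [ChowTheory.ext, C.pull_mul]
  ring

lemma pow_mem {D : C.CH X} (hD : D ∈ C.gr X 1) (n : ℕ) : D ^ n ∈ C.gr X n := by
  induction n with
  | zero => rw [pow_zero]; exact C.one_mem X
  | succ n ih => rw [pow_succ]; exact C.mul_mem ih hD

/-- squares determine products -/
lemma products_of_squares (hC : C.Polarized) (h : SquaresVanish W) : ProductsVanish W := by
  have key : ∀ (X : 𝒱.Obj) (m n : ℕ) (z w : C.CH X), 1 ≤ m → m ≤ n → HomTrivial W X m z →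
      HomTrivial W X n w → z * w = 0 := by
    intro X m n z w hm hmn hz hw
    by_cases hn : X.dim < n
    · have h0 : w = 0 := by
        have h1 : w ∈ C.gr X n := hw.1
        rw [C.gr_eq_bot X n hn] at h1
        exact (Submodule.mem_bot ℚ).1 h1
      rw [h0, mul_zero]
    · obtain ⟨D, hD, hd⟩ := hC X
      have h1 : HomTrivial W (X.prod X) n (C.ext z (D ^ (n - m))) := by
        have := hz.ext (pow_mem hD (n - m))
        rwa [Nat.add_sub_cancel' hmn] at this
      have h2 : HomTrivial W (X.prod X) n (C.ext w 1) := hw.ext (C.one_mem X)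
      have e1 : C.ext z (D ^ (n - m)) * C.ext z (D ^ (n - m)) = 0 := h _ n _ (by omega) h1
      have e2 : C.ext w 1 * C.ext w (1 : C.CH X) = 0 := h _ n _ (by omega) h2
      have e3 : (C.ext z (D ^ (n - m)) + C.ext w 1) * (C.ext z (D ^ (n - m)) + C.ext w 1) = 0 :=
        h _ n _ (by omega) (h1.add' h2)
      have e4 : (2 : ℚ) • (C.ext z (D ^ (n - m)) * C.ext w 1) = 0 := by
        have : (2 : ℚ) • (C.ext z (D ^ (n - m)) * C.ext w (1 : C.CH X)) =
            (C.ext z (D ^ (n - m)) + C.ext w 1) * (C.ext z (D ^ (n - m)) + C.ext w 1) -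
              C.ext z (D ^ (n - m)) * C.ext z (D ^ (n - m)) - C.ext w 1 * C.ext w 1 := by
          rw [two_smul]; ring
        rw [this, e1, e2, e3]; simp
      have e5 := (smul_eq_zero.1 e4).resolve_left two_ne_zero
      rw [ext_mul_ext, mul_one] at e5
      refine ext_inj (y := D ^ (n - m)) (D ^ (X.dim - (n - m))) ?_ e5
      rw [← pow_add, Nat.add_sub_cancel' (by omega)]
      exact hd
  intro X m n z w hm hn hz hw
  rcases le_total m n with h1 | h1
  · exact key X m n z w hm h1 hz hw
  · change z * w = 0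
    rw [mul_comm]
    exact key X n m w z hn h1 hw hz

theorem main_tfae (hC : C.Polarized) :
    [ ProductsVanish W, ExternalVanish W, CorrespondencesVanish W, CompositionsVanish W,
      SquaresVanish W, SmashSquaresVanish W ].TFAE := by
  tfae_have 1 → 2 := by
    intro h X Y m n z w hm hn hz hw
    exact h (X.prod Y) m n _ _ hm hn (hz.pull' _) (hw.pull' _)
  tfae_have 1 → 3 := by
    intro h Y X n c z γ hn hc hz hγ
    have h1 : γ * C.pull (fst Y X) z = 0 := h (Y.prod X) c n _ _ hc hn hγ (hz.pull' _)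
    rw [Null, corrAct_eq, C.act_apply, h1, map_zero]
  tfae_have 3 → 2 := by
    intro h X Y m n z w hm hn hz hw
    rw [Null, extProd_eq, ← act_mulExt]
    exact h X _ m (X.dim + n) z _ hm (by omega) hz (mulExt_homTrivial hw)
  tfae_have 1 → 4 := by
    intro h X Y Z a b α β ha hb hα hβ
    have h1 : C.pull (p12 X Y Z) α * C.pull (snd X (Y.prod Z)) β = 0 :=
      h _ a b _ _ ha hb (hα.pull' _) (hβ.pull' _)
    rw [Null, compose_eq, ChowTheory.comp, h1, map_zero]
  tfae_have 4 → 2 := by
    intro h X Y m n z w hm hn hz hw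
    obtain ⟨o, ho, hd⟩ := exists_point hC X
    have h1 : HomTrivial W (X.prod X) (m + X.dim) (C.ext z o) := hz.ext ho
    have h2 : HomTrivial W (X.prod Y) n (C.ext 1 w) := by
      refine homTrivial_mk ?_ ?_
      · have := C.ext_mem (C.one_mem X) hw.1
        rwa [zero_add] at this
      · rw [ChowTheory.ext, W.cl_mul, W.cl_pull, W.cl_pull, hw.cl, map_zero, mul_zero]
    have h3 : C.comp (C.ext z o) (C.ext 1 w) = 0 :=
      h X X Y _ n _ _ (by omega) hn h1 h2
    rw [ext_comp_gen, C.act_ext, mul_one, hd, one_smul] at h3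
    exact h3
  tfae_have 2 → 6 := fun h X m z hm hz => h X X m m z z hm hm hz hz
  tfae_have 6 → 5 := by
    intro h X m z hm hz
    have h1 : C.ext z z = 0 := h X m z hm hz
    rw [NullProd, ← C.pull_diag_ext, h1, map_zero]
  tfae_have 5 → 1 := products_of_squares hC
  tfae_finish

variable (A : AJTheory W)

theorem of_injective (h : AJInjective A) : ProductsVanish W := by
  intro X m n z w hm hn hz hw
  have h1 : HomTrivial W (X.prod X) (m + X.dim) (C.span (𝟙 X) (𝟙 X) z) :=
    homTrivial_mk (C.span_mem _ _ hz.1 (by omega)) (by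
      rw [ChowTheory.span, W.cl_push, hz.cl, map_zero])
  have h2 : C.act (C.span (𝟙 X) (𝟙 X) z) w = z * w := act_mulC z w
  change z * w = 0
  rw [← h2]
  refine h X (m + n) (by omega) _ (hw.act h1.1 (by omega)) ?_
  rw [aj_act A (c := m + X.dim) h1.1 (by omega) hw]
  exact A.corr_eq_zero n (m + n) (m + X.dim) (2 * n - 1) _ h1.1 (by omega) (by omega)
    (h1.kills _) _

theorem injOnAlg_of (hC : C.Polarized) (h : CorrespondencesVanish W) : AJInjectiveOnAlg A := by
  intro X m hm
  exact (injOnAlg_iff A hC X m).2 fun E _ γ y hγ hy => h E X 1 m y γ le_rfl hm hy hγ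

end Pool.Agent.T6.H15.SQ
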